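import Mathlib
import Pool.Agent.Work.MP_a97ec2_h29.Fin
import Pool.Agent.Work.MP_a97ec2_h29.FinS

/-!
# Closed rainbow sets of every countable order type (MP_a97ec2_lc)

`Ω` is a well-ordered set of order type `ω₂`.  Without any extra set-theoretic hypothesis, every
normal `ω`-bounded colouring of the pairs of `ω₂` has a closed rainbow set of every countable order
type, and it can be found inside every given stationary set of points of cofinality `ω`.  Q1 asks whether the order type
`ω₁` is consistent.

The proof: for a finite set `b` let `T b` be the set of the `d ∈ S` above `b` for which `f(·,d)` is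
injective on `b`.  If `T b` is stationary, then `T (b ∪ {x})` is stationary for all but countably
many `x`.  A hierarchy `W ν`, `ν < θ`, of subsets of `S` which contain almost all points of `S`
(in the sense of the club filter) is defined so that below each point of `W ν` there are,
cofinally, uncountably many points of `T b ∩ W ν'`, `ν' < ν`.  Then the rainbow set is built from
its top point by finite approximations; the points of cofinality `ω` are reached as limits by
bookkeeping.
-/

namespace Pool.Agent.Results.MP_a97ec2_lc.CountableTypes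

open Ordinal

/-- `f : [ω₂]² → ω₂` is normal: pairs of the same colour have the same maximum -/
def Normal {Ω : Type} [LinearOrder Ω] (f : Ω → Ω → Ω) : Prop :=
  ∀ a b a' b' : Ω, a < b → a' < b' → f a b = f a' b' → b = b'

/-- `f` is `ω`-bounded: every colour class is countable -/
def OmegaBounded {Ω : Type} [LinearOrder Ω] (f : Ω → Ω → Ω) : Prop :=
  ∀ c : Ω, {p : Ω × Ω | p.1 < p.2 ∧ f p.1 p.2 = c}.Countable

/-- `A` is `f`-rainbow: `f` is injective on the pairs of `A` -/
def Rainbow {Ω : Type} [LinearOrder Ω] (f : Ω → Ω → Ω) (A : Set Ω) : Prop :=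
  ∀ a ∈ A, ∀ b ∈ A, ∀ a' ∈ A, ∀ b' ∈ A, a < b → a' < b' → f a b = f a' b' → a = a' ∧ b = b'

/-- `A` is closed: every `γ` which is below some element of `A` and is the supremum of the
(non-empty) set of the elements of `A` below `γ` belongs to `A` -/
def Closed {Ω : Type} [LinearOrder Ω] (A : Set Ω) : Prop :=
  ∀ γ : Ω, (∃ a ∈ A, γ < a) → (A ∩ Set.Iio γ).Nonempty → IsLUB (A ∩ Set.Iio γ) γ → γ ∈ A

/-- closed unbounded subsets of `ω₂` -/
def Club {Ω : Type} [LinearOrder Ω] (C : Set Ω) : Prop :=
  (∀ a, ∃ c ∈ C, a < c) ∧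
    ∀ γ : Ω, (C ∩ Set.Iio γ).Nonempty → IsLUB (C ∩ Set.Iio γ) γ → γ ∈ C

/-- stationary subsets of `ω₂` -/
def Stationary {Ω : Type} [LinearOrder Ω] (S : Set Ω) : Prop :=
  ∀ C : Set Ω, Club C → (S ∩ C).Nonempty

/-- `d` has cofinality `ω` -/
def CofinalityOmega {Ω : Type} [LinearOrder Ω] (d : Ω) : Prop :=
  ∃ s : ℕ → Ω, (∀ n, s n < d) ∧ ∀ z < d, ∃ n, z < s n

/-- **Every normal `ω`-bounded colouring of `[ω₂]²` has a closed rainbow set of every countable order
type, also inside every stationary set of points of cofinality `ω`** (`Θ` is a countable well-ordered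
set). -/
theorem result (Ω : Type) [LinearOrder Ω] [WellFoundedLT Ω]
    (hΩ : Ordinal.type (fun a b : Ω => a < b) = ω_ 2)
    (f : Ω → Ω → Ω) (hf : Normal f) (hb : OmegaBounded f)
    (Θ : Type) [LinearOrder Θ] [WellFoundedLT Θ] [Countable Θ] :
    (∃ A : Set Ω, Nonempty (Θ ≃o A) ∧ Closed A ∧ Rainbow f A) ∧
    (∀ S : Set Ω, Stationary S → (∀ d ∈ S, CofinalityOmega d) →
      ∃ A : Set Ω, A ⊆ S ∧ Nonempty (Θ ≃o A) ∧ Closed A ∧ Rainbow f A) :=
  ⟨Pool.Rbw.main Ω hΩ f hf hb Θ, fun S hS hc => Pool.RbwS.main Ω hΩ S hS hc f hf hb Θ⟩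

end Pool.Agent.Results.MP_a97ec2_lc.CountableTypes
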