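import Pool.Agent.Work.MP_a97ec2_h4.B_REG
import Pool.Agent.Work.MP_a97ec2_h4.B_ULM
import Pool.Agent.Work.MP_a97ec2_h4.B_DGN
import Pool.Agent.Work.MP_a97ec2_h4.B_COL
import Pool.Agent.Work.MP_a97ec2_h4.B_CLB
import Pool.Agent.Work.MP_a97ec2_h4.B_WK
import Pool.Agent.Work.MP_a97ec2_h4.B_FIN

/-!
# Closed rainbow sets of type `ω_1` in `ω_2` and non-reflection

`W` is a well-order of type `ω_2`; the definitions of the colourings, of closed and rainbow sets are
in `Pool/Agent/Work/MP_a97ec2_h4/Interface.lean`; clubs, stationary sets and cofinalities are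
Mathlib's. If every normal 2-bounded colouring of the pairs of `W` has a closed rainbow set of order
type `ω_1` then every stationary `T` has a stationary subset `T'` which is not stationary in `δ` for
stationary many `δ` of cofinality `ω_1`. The hypothesis follows from the same principle for
`ω`-bounded colourings (the principle of Q1) and from the one for `< ω_1`-type bounded colourings.
-/

set_option autoImplicit false

open Cardinal Order Set Ordinal
open Pool.Agent.Work.MP_a97ec2_h4

namespace Pool.Agent.Results.MP_a97ec2_lc.RainbowNonReflection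

/-- **Main theorem.** -/
theorem result (W : Type) [LinearOrder W] [WellFoundedLT W] (hW : typeLT W = ω_ 2) :
    (Poly W OmegaBounded → Poly W TwoBounded) ∧ (Poly W TypeBounded → Poly W TwoBounded) ∧
    (Poly W TwoBounded → ∀ T : Set W, IsStationary T → ∃ T' ⊆ T, IsStationary T' ∧
      IsStationary {δ : W | Order.cof (Iio δ) = ℵ_ 1 ∧ ¬ Reflects T' δ}) :=
  ⟨(p_WK W).1, (p_WK W).2,
    p_MAIN p_REG (p_ULM p_REG) (p_DGN p_REG) (p_COL p_REG) (p_CLB p_REG) W hW⟩

end Pool.Agent.Results.MP_a97ec2_lc.RainbowNonReflection
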